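import Mathlib

namespace Pool.Agent.Results.MP_fd0bc0_an.NotCarleman

open MeasureTheory Set Filter Topology

abbrev H : Type := Lp ℂ 2 (volume : Measure ℝ)

def Kernel (k : ℝ → ℝ → ℂ) : Prop :=
  Measurable (Function.uncurry k) ∧ ∀ᵐ x, MemLp (k x) 2 volume

def Carleman (A : H →ₗ.[ℂ] H) : Prop :=
  ∃ k, Kernel k ∧ ∀ f : A.domain, ∀ᵐ x, A f x = ∫ y, k x y * f.1 y

theorem intg {k : ℝ → ℂ} (hk : MemLp k 2 volume) (f : H) : Integrable fun y => k y * f y :=
  hk.integrable_mul (Lp.memLp f)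

noncomputable def T (k : ℝ → ℝ → ℂ) (hk : ∀ x, MemLp (k x) 2 volume) : H →ₗ[ℂ] ℝ → ℂ where
  toFun f x := ∫ y, k x y * f y
  map_add' f g := funext fun x => by
    rw [Pi.add_apply, ← integral_add (intg (hk x) f) (intg (hk x) g)]
    exact integral_congr_ae ((Lp.coeFn_add f g).mono fun y hy => by simp only [hy, Pi.add_apply, mul_add])
  map_smul' c f := funext fun x => by
    rw [Pi.smul_apply, RingHom.id_apply, ← integral_smul]
    exact integral_congr_ae ((Lp.coeFn_smul c f).mono fun y hy => by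
      simp only [hy, Pi.smul_apply, smul_eq_mul, mul_left_comm])

noncomputable def op (k : ℝ → ℝ → ℂ) (hk : ∀ x, MemLp (k x) 2 volume) : H →ₗ.[ℂ] H where
  domain :=
    { carrier := {f | MemLp (T k hk f) 2 volume}
      add_mem' := fun h h' => by rw [mem_ofPred_eq, map_add]; exact h.add h'
      zero_mem' := by rw [mem_ofPred_eq, map_zero]; exact MemLp.zero
      smul_mem' := fun c _ h => by rw [mem_ofPred_eq, map_smul]; exact h.const_smul c }
  toFun :=
    { toFun := fun f => MemLp.toLp _ f.2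
      map_add' := fun f g => (MemLp.toLp_congr _ (f.2.add g.2) (by simp)).trans (MemLp.toLp_add _ _)
      map_smul' := fun c f => (MemLp.toLp_congr _ (f.2.const_smul c) (by simp)).trans
        (MemLp.toLp_const_smul _ _) }

theorem op_app (k : ℝ → ℝ → ℂ) (hk : ∀ x, MemLp (k x) 2 volume) (f : (op k hk).domain) :
    ∀ᵐ x, op k hk f x = ∫ y, k x y * f.1 y := MemLp.coeFn_toLp f.2

noncomputable def g (x : ℝ) : ℂ := ((1 + x ^ 2 : ℝ) : ℂ)⁻¹

theorem g0 (x : ℝ) : ((1 + x ^ 2 : ℝ) : ℂ) ≠ 0 := Complex.ofReal_ne_zero.2 (by positivity)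

theorem gm : Measurable g := by unfold g; fun_prop

theorem g2 : MemLp g 2 volume := by
  refine (memLp_two_iff_integrable_sq_norm gm.aestronglyMeasurable).2
    (integrable_inv_one_add_sq.mono' (gm.norm.pow_const 2).aestronglyMeasurable
      (.of_forall fun x => ?_))
  rw [g, norm_inv, Complex.norm_real, Real.norm_eq_abs, Real.norm_eq_abs, abs_of_pos (by positivity),
    abs_of_pos (by positivity)]
  exact pow_le_of_le_one (by positivity) (inv_le_one_of_one_le₀ (by nlinarith)) two_ne_zero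

def I (n : ℤ) : Set ℝ := Ico (n : ℝ) (n + 1)

theorem memI {n : ℤ} {x : ℝ} : x ∈ I n ↔ ⌊x⌋ = n := Int.floor_eq_iff.symm

theorem vI (n : ℤ) : volume (I n) = 1 := by simp [I]

theorem mI (n : ℤ) : MeasurableSet (I n) := measurableSet_Ico

noncomputable def e (n : ℤ) : H := indicatorConstLp 2 (mI n) (by simp [vI]) (1 : ℂ)

theorem int_e (k : ℝ → ℂ) (n : ℤ) : ∫ y, k y * e n y = ∫ y in I n, k y := by
  rw [← integral_indicator (mI n)]
  refine integral_congr_ae ((indicatorConstLp_coeFn (p := 2) (μ := volume) (hs := mI n)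
    (hμs := by simp [vI]) (c := (1 : ℂ))).mono fun y hy => ?_)
  simp only [e, hy, indicator]
  split_ifs <;> simp

theorem on : Orthonormal ℂ e := orthonormal_iff_ite.2 fun m n => by
  rw [e, e, L2.inner_indicatorConstLp_one_indicatorConstLp_one _ _ (by simp [vI]) (by simp [vI])]
  split_ifs with h
  · simp [h, Measure.real, vI]
  · rw [show I m ∩ I n = ∅ from eq_empty_of_forall_notMem fun x hx =>
      h ((memI.1 hx.1).symm.trans (memI.1 hx.2))]
    simp

noncomputable def kB (x y : ℝ) : ℂ := if ⌊y⌋ = ⌊x⌋ then ((1 + x ^ 2 : ℝ) : ℂ) else 0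

theorem kB_eq (x : ℝ) : kB x = (I ⌊x⌋).indicator fun _ => ((1 + x ^ 2 : ℝ) : ℂ) :=
  funext fun y => by simp only [kB, indicator, memI]

theorem hB (x : ℝ) : MemLp (kB x) 2 volume :=
  kB_eq x ▸ memLp_indicator_const 2 (mI _) _ (.inr (by simp [vI]))

theorem Be (n : ℤ) (x : ℝ) :
    ∫ y, kB x y * e n y = (I n).indicator (fun x => ((1 + x ^ 2 : ℝ) : ℂ)) x := by
  rw [int_e, setIntegral_congr_fun (mI n)
    (g := fun _ => (I n).indicator (fun x => ((1 + x ^ 2 : ℝ) : ℂ)) x) fun y hy => by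
      simp only [kB, indicator, memI, memI.1 hy, eq_comm (a := n)]]
  simp [Measure.real, vI]

theorem eB (n : ℤ) : e n ∈ (op kB hB).domain := by
  show MemLp (fun x => ∫ y, kB x y * e n y) 2 volume
  simp only [Be]
  rw [memLp_indicator_iff_restrict (mI n)]
  have : IsFiniteMeasure (volume.restrict (I n)) := ⟨by simp [vI]⟩
  refine MemLp.of_bound (by fun_prop) (1 + (|(n : ℝ)| + 1) ^ 2)
    ((ae_restrict_mem (mI n)).mono fun x hx => ?_)
  rw [Complex.norm_real, Real.norm_eq_abs, abs_of_pos (by positivity), add_le_add_iff_left]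
  exact sq_le_sq' (by linarith [hx.1, neg_abs_le (n : ℝ)]) (by linarith [hx.2, le_abs_self (n : ℝ)])

theorem hA (x : ℝ) : MemLp (fun y => g x * g y) 2 volume := g2.const_mul _

theorem result : ∃ A B : H →ₗ.[ℂ] H, Carleman A ∧ Carleman B ∧ A.domain = ⊤ ∧
    ¬ ∃ k, Kernel k ∧ ∀ (f : B.domain) (h : B f ∈ A.domain),
      ∀ᵐ x, A ⟨B f, h⟩ x = ∫ y, k x y * f.1 y := by
  have dA : ∀ f, f ∈ (op _ hA).domain := fun f => by
    show MemLp (fun x => ∫ y, g x * g y * f y) 2 volume
    simp only [mul_assoc, integral_const_mul]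
    exact g2.mul_const _
  refine ⟨op _ hA, op kB hB, ⟨fun x y => g x * g y, ⟨(gm.comp measurable_fst).mul (gm.comp measurable_snd),
    .of_forall hA⟩, op_app _ hA⟩, ⟨kB, ⟨Measurable.ite (measurableSet_eq_fun (by fun_prop)
      (by fun_prop)) (by fun_prop) measurable_const, .of_forall hB⟩, op_app _ hB⟩,
    eq_top_iff.2 fun f _ => dA f, fun ⟨k, hk, h⟩ => ?_⟩
  have h1 : ∀ n, ∀ᵐ x, ∫ y, k x y * e n y = g x := fun n => by
    filter_upwards [h ⟨e n, eB n⟩ (dA _), op_app _ hA ⟨op kB hB ⟨e n, eB n⟩, dA _⟩] with x h1 h2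
    rw [← h1, h2, integral_congr_ae (g := (I n).indicator fun _ => g x)
      ((op_app kB hB ⟨e n, eB n⟩).mono fun y hy => ?_), integral_indicator_const _ (mI n)]
    · simp [Measure.real, vI]
    · simp only [hy, Be, indicator]
      split_ifs
      · rw [mul_assoc, g, g, inv_mul_cancel₀ (g0 y), mul_one]
      · simp
  obtain ⟨x, hx, h2⟩ := (hk.2.and (ae_all_iff.2 h1)).exists
  have h3 := on.inner_products_summable (hx.toLp _)
  rw [show (fun n => ‖inner ℂ (e n) (hx.toLp _)‖ ^ 2) = fun _ => ‖g x‖ ^ 2 from funext fun n => by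
    rw [← h2 n, int_e, e, L2.inner_indicatorConstLp_one,
      setIntegral_congr_ae (mI n) (hx.coeFn_toLp.mono fun _ h _ => h)], summable_const_iff] at h3
  exact inv_ne_zero (g0 x) (norm_eq_zero.1 (pow_eq_zero_iff two_ne_zero |>.1 h3))

end Pool.Agent.Results.MP_fd0bc0_an.NotCarleman
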